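import Pool.Agent.T2H15.UV.Sparse

/-!
# The Erdős–Szekeres and the Erdős–Szemerédi theorem
-/

set_option autoImplicit false

namespace Pool.Agent.T2H15.UV

open Finset

/-- All pairs of `I` have the colour `a`. -/
def Mono (f : ℕ → ℕ → Bool) (a : Bool) (I : Finset ℕ) : Prop :=
  ∀ x ∈ I, ∀ y ∈ I, x ≠ y → f x y = a

theorem Mono.insert {f : ℕ → ℕ → Bool} (hf : ∀ x y, f x y = f y x) {a : Bool} {I : Finset ℕ}
    {v : ℕ} (h : Mono f a I) (hv : ∀ x ∈ I, f v x = a) : Mono f a (insert v I) := by
  intro x hx y hy hxy
  rcases mem_insert.1 hx with hx1 | hx1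
  · rcases mem_insert.1 hy with hy1 | hy1
    · exact absurd (hx1.trans hy1.symm) hxy
    · rw [hx1]
      exact hv y hy1
  · rcases mem_insert.1 hy with hy1 | hy1
    · rw [hf, hy1]
      exact hv x hx1
    · exact h x hx1 y hy1 hxy

/-- Erdős–Szekeres -/
theorem erdos_szekeres {f : ℕ → ℕ → Bool} (hf : ∀ x y, f x y = f y x) (a : Bool) :
    ∀ s t : ℕ, ∀ Z : Finset ℕ, (s + t).choose s ≤ Z.card →
      (∃ J ⊆ Z, J.card = s + 1 ∧ Mono f a J) ∨ (∃ J ⊆ Z, J.card = t + 1 ∧ Mono f (!a) J) := by
  classical
  intro s
  induction s with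
  | zero =>
    intro t Z hZ
    left
    have : 0 < Z.card := by simpa using hZ
    obtain ⟨x, hx⟩ := card_pos.1 this
    refine ⟨{x}, singleton_subset_iff.2 hx, by simp, ?_⟩
    intro y hy z hz hyz
    rw [mem_singleton] at hy hz
    exact absurd (hy.trans hz.symm) hyz
  | succ s ihs =>
    intro t
    induction t with
    | zero =>
      intro Z hZ
      right
      have : 0 < Z.card := by simpa using hZ
      obtain ⟨x, hx⟩ := card_pos.1 this
      refine ⟨{x}, singleton_subset_iff.2 hx, by simp, ?_⟩
      intro y hy z hz hyz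
      rw [mem_singleton] at hy hz
      exact absurd (hy.trans hz.symm) hyz
    | succ t iht =>
      intro Z hZ
      have hch : (s + 1 + (t + 1)).choose (s + 1) =
          (s + (t + 1)).choose s + (s + 1 + t).choose (s + 1) := by
        rw [show s + 1 + (t + 1) = (s + (t + 1)) + 1 by ring, Nat.choose_succ_succ]
        congr 2
        ring
      have hpos : 0 < Z.card := lt_of_lt_of_le (Nat.choose_pos (by omega)) hZ
      obtain ⟨v, hv⟩ := card_pos.1 hpos
      set A := (Z.erase v).filter (fun u => f v u = a) with hA
      set B := (Z.erase v).filter (fun u => ¬ f v u = a) with hB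
      have hAB : A.card + B.card = Z.card - 1 := by
        rw [hA, hB, card_filter_add_card_filter_not, card_erase_of_mem hv]
      have hAZ : A ⊆ Z := (filter_subset _ _).trans (erase_subset _ _)
      have hBZ : B ⊆ Z := (filter_subset _ _).trans (erase_subset _ _)
      have hvA : v ∉ A := fun h => (notMem_erase v Z) (mem_filter.1 h).1
      have hvB : v ∉ B := fun h => (notMem_erase v Z) (mem_filter.1 h).1
      rcases Nat.lt_or_ge A.card ((s + (t + 1)).choose s) with h | h
      · have hBc : (s + 1 + t).choose (s + 1) ≤ B.card := by omega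
        rcases iht B hBc with ⟨J, hJ, hJc, hJm⟩ | ⟨J, hJ, hJc, hJm⟩
        · left
          exact ⟨J, hJ.trans hBZ, hJc, hJm⟩
        · right
          refine ⟨insert v J, insert_subset hv (hJ.trans hBZ), ?_, ?_⟩
          · rw [card_insert_of_notMem (fun h => hvB (hJ h)), hJc]
          · apply hJm.insert hf
            intro x hx
            have := (mem_filter.1 (hJ hx)).2
            cases a <;> simpa using this
      · rcases ihs (t + 1) A h with ⟨J, hJ, hJc, hJm⟩ | ⟨J, hJ, hJc, hJm⟩
        · left
          refine ⟨insert v J, insert_subset hv (hJ.trans hAZ), ?_, ?_⟩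
          · rw [card_insert_of_notMem (fun h => hvA (hJ h)), hJc]
          · exact hJm.insert hf (fun x hx => (mem_filter.1 (hJ hx)).2)
        · right
          exact ⟨J, hJ.trans hAZ, hJc, hJm⟩

/-- The number of subsets with at most `j` elements. -/
theorem card_small_subsets (I : Finset ℕ) (j n : ℕ) (hI : I.card ≤ n) :
    (I.powerset.filter (fun D => D.card ≤ j)).card ≤ (n + j).choose j := by
  classical
  have h1 : I.powerset.filter (fun D => D.card ≤ j) ⊆
      (range (j + 1)).biUnion (fun i => I.powersetCard i) := by
    intro D hD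
    rw [mem_filter, mem_powerset] at hD
    exact mem_biUnion.2 ⟨D.card, mem_range.2 (by omega), mem_powersetCard.2 ⟨hD.1, rfl⟩⟩
  refine (card_le_card h1).trans (card_biUnion_le.trans ?_)
  rw [Nat.add_choose_eq, Finset.Nat.sum_antidiagonal_eq_sum_range_succ
    (fun a b => n.choose a * j.choose b)]
  apply sum_le_sum
  intro i hi
  rw [mem_range] at hi
  rw [card_powersetCard]
  calc I.card.choose i ≤ n.choose i := Nat.choose_le_choose _ hI
    _ ≤ n.choose i * j.choose (j - i) := Nat.le_mul_of_pos_right _ (Nat.choose_pos (by omega))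

/-- Erdős–Szemerédi: sets in which the colour `a` is rare. -/
theorem erdos_szemeredi {f : ℕ → ℕ → Bool} (hf : ∀ x y, f x y = f y x) (a : Bool) (n j t w : ℕ)
    (hw : 1 ≤ w) (X : Finset ℕ) (hX : X.card = t * w) (hXe : ee f a X X ≤ 2 * (t * w ^ 2))
    (htj : 16 * n ≤ t * j) (hbig : 4 * n + 4 * (n + j).choose j ^ 2 < t * w) :
    ∃ b : Bool, ∃ I ⊆ X, I.card = n ∧ Mono f b I := by
  classical
  by_contra hno
  push Not at hno
  -- low degree vertices
  set W := X.filter (fun v => (X.filter (fun u => f v u = a)).card ≤ 4 * w) with hW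
  have hWX : W ⊆ X := filter_subset _ _
  have hWc : X.card ≤ 2 * W.card := by
    have h2 : (4 * w) * (X \ W).card ≤ ee f a X X := by
      rw [ee_eq]
      calc (4 * w) * (X \ W).card = ∑ v ∈ X \ W, 4 * w := by
            rw [sum_const, smul_eq_mul, mul_comm]
        _ ≤ ∑ v ∈ X \ W, (X.filter (fun u => f v u = a)).card := by
            apply sum_le_sum
            intro v hv
            rw [mem_sdiff] at hv
            by_contra hcon
            exact hv.2 (mem_filter.2 ⟨hv.1, (not_le.1 hcon).le⟩)
        _ ≤ _ := sum_le_sum_of_subset sdiff_subset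
    have h3 : (2 * w) * (2 * (X \ W).card) ≤ (2 * w) * (t * w) := by
      calc (2 * w) * (2 * (X \ W).card) = (4 * w) * (X \ W).card := by ring
        _ ≤ 2 * (t * w ^ 2) := h2.trans hXe
        _ = _ := by ring
    have h4 : 2 * (X \ W).card ≤ t * w := Nat.le_of_mul_le_mul_left h3 (by omega)
    have h5 : (X \ W).card + W.card = X.card := card_sdiff_add_card_eq_card hWX
    omega
  -- a maximum set without the colour `a`
  obtain ⟨I, hI, hImax⟩ : ∃ I ∈ W.powerset.filter (fun I => Mono f (!a) I),
      ∀ J ∈ W.powerset.filter (fun I => Mono f (!a) I), J.card ≤ I.card := by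
    apply exists_max_image
    refine ⟨∅, mem_filter.2 ⟨empty_mem_powerset _, ?_⟩⟩
    intro x hx
    exact absurd hx (notMem_empty x)
  rw [mem_filter, mem_powerset] at hI
  obtain ⟨hIW, hIm⟩ := hI
  have hIn : I.card < n := by
    by_contra hcon
    obtain ⟨I', hI', hI'c⟩ := exists_subset_card_eq (not_lt.1 hcon)
    exact hno (!a) I' (hI'.trans (hIW.trans hWX)) hI'c
      (fun x hx y hy => hIm x (hI' hx) y (hI' hy))
  -- the vertices with few neighbours in `I`
  set W' := (W \ I).filter (fun v => (I.filter (fun u => f v u = a)).card ≤ j) with hW'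
  have hW'W : W' ⊆ W := (filter_subset _ _).trans sdiff_subset
  have hW'c : t * w ≤ 4 * (W'.card + n) := by
    set Y := W.filter (fun v => ¬ (I.filter (fun u => f v u = a)).card ≤ j) with hY
    have h1 : W.card ≤ W'.card + Y.card + I.card := by
      have : W ⊆ (W' ∪ Y) ∪ I := by
        intro v hv
        by_cases h1 : v ∈ I
        · exact mem_union_right _ h1
        · apply mem_union_left
          by_cases h2 : (I.filter (fun u => f v u = a)).card ≤ j
          · exact mem_union_left _ (mem_filter.2 ⟨mem_sdiff.2 ⟨hv, h1⟩, h2⟩)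
          · exact mem_union_right _ (mem_filter.2 ⟨hv, h2⟩)
      refine (card_le_card this).trans ((card_union_le _ _).trans ?_)
      exact Nat.add_le_add_right (card_union_le _ _) _
    have h2 : (j + 1) * Y.card ≤ I.card * (4 * w) := by
      have h3 : (j + 1) * Y.card ≤ ee f a W I := by
        rw [ee_eq]
        calc (j + 1) * Y.card = ∑ v ∈ Y, (j + 1) := by rw [sum_const, smul_eq_mul, mul_comm]
          _ ≤ ∑ v ∈ Y, (I.filter (fun u => f v u = a)).card := by
              apply sum_le_sum
              intro v hv
              have := (mem_filter.1 hv).2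
              omega
          _ ≤ _ := sum_le_sum_of_subset (filter_subset _ _)
      refine h3.trans ?_
      rw [ee_symm hf, ee_eq]
      refine (sum_le_card_nsmul _ _ (4 * w) ?_).trans ?_
      · intro v hv
        have h4 := (mem_filter.1 (hIW hv)).2
        refine le_trans (card_le_card ?_) h4
        exact filter_subset_filter _ hWX
      · simp
    -- `4 |Y| ≤ t w`
    have h5 : 4 * Y.card ≤ t * w := by
      have h6 : (j * Y.card) ≤ n * (4 * w) := by
        calc j * Y.card ≤ (j + 1) * Y.card := Nat.mul_le_mul_right _ (by omega)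
          _ ≤ I.card * (4 * w) := h2
          _ ≤ n * (4 * w) := Nat.mul_le_mul_right _ hIn.le
      rcases Nat.eq_zero_or_pos j with hj | hj
      · rw [hj] at htj
        omega
      · have h7 : j * (4 * Y.card) ≤ j * (t * w) := by
          calc j * (4 * Y.card) = 4 * (j * Y.card) := by ring
            _ ≤ 4 * (n * (4 * w)) := Nat.mul_le_mul_left _ h6
            _ = (16 * n) * w := by ring
            _ ≤ (t * j) * w := Nat.mul_le_mul_right _ htj
            _ = _ := by ring
        exact Nat.le_of_mul_le_mul_left h7 hj
    omega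
  -- the classes
  have hclass : ∀ D ∈ I.powerset.filter (fun D => D.card ≤ j),
      (W'.filter (fun v => I.filter (fun u => f v u = a) = D)).card ≤ (n + j).choose j := by
    intro D hD
    rw [mem_filter, mem_powerset] at hD
    obtain ⟨hDI, hDj⟩ := hD
    by_contra hcon
    push Not at hcon
    have h1 : (D.card + (n - 1)).choose D.card ≤
        (W'.filter (fun v => I.filter (fun u => f v u = a) = D)).card := by
      refine le_trans ?_ hcon.le
      calc (D.card + (n - 1)).choose D.card = (D.card + (n - 1)).choose (n - 1) :=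
            Nat.choose_symm_add
        _ ≤ (j + (n - 1)).choose (n - 1) := Nat.choose_le_choose _ (by omega)
        _ = (j + (n - 1)).choose j := Nat.choose_symm_add.symm
        _ ≤ (n + j).choose j := Nat.choose_le_choose _ (by omega)
    rcases erdos_szekeres hf (!a) _ _ _ h1 with ⟨J, hJ, hJc, hJm⟩ | ⟨J, hJ, hJc, hJm⟩
    · -- `(I \ D) ∪ J`
      have hJW' : J ⊆ W' := hJ.trans (filter_subset _ _)
      have hJI : Disjoint (I \ D) J := by
        rw [disjoint_left]
        intro x hx hx'
        exact (mem_sdiff.1 (mem_filter.1 (hJW' hx')).1).2 (mem_sdiff.1 hx).1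
      have hmono : Mono f (!a) ((I \ D) ∪ J) := by
        have hcross : ∀ x ∈ J, ∀ y ∈ I \ D, f x y = !a := by
          intro x hx y hy
          rw [mem_sdiff] at hy
          have h2 := (mem_filter.1 (hJ hx)).2
          have h3 : f x y ≠ a := by
            intro h
            apply hy.2
            rw [← h2]
            exact mem_filter.2 ⟨hy.1, h⟩
          cases a <;> simpa using h3
        intro x hx y hy hxy
        rcases mem_union.1 hx with hx | hx
        · rcases mem_union.1 hy with hy | hy
          · exact hIm x (mem_sdiff.1 hx).1 y (mem_sdiff.1 hy).1 hxy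
          · rw [hf]
            exact hcross y hy x hx
        · rcases mem_union.1 hy with hy | hy
          · exact hcross x hx y hy
          · exact hJm x hx y hy hxy
      have h4 := hImax ((I \ D) ∪ J) (mem_filter.2 ⟨mem_powerset.2 (union_subset
        (sdiff_subset.trans hIW) (hJW'.trans hW'W)), hmono⟩)
      rw [card_union_of_disjoint hJI, hJc] at h4
      have h5 : (I \ D).card + D.card = I.card := card_sdiff_add_card_eq_card hDI
      omega
    · rw [Bool.not_not] at hJm
      have hn : n - 1 + 1 = n := by omega
      rw [hn] at hJc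
      exact hno a J (hJ.trans ((filter_subset _ _).trans (hW'W.trans hWX))) hJc hJm
  have hsum : W'.card ≤ (n + j).choose j * (n + j).choose j := by
    have h1 : W'.card = ∑ D ∈ I.powerset.filter (fun D => D.card ≤ j),
        (W'.filter (fun v => I.filter (fun u => f v u = a) = D)).card := by
      apply card_eq_sum_card_fiberwise
      intro v hv
      rw [Finset.mem_coe] at hv ⊢
      exact mem_filter.2 ⟨mem_powerset.2 (filter_subset _ _), (mem_filter.1 hv).2⟩
    rw [h1]
    refine (sum_le_card_nsmul _ _ _ hclass).trans ?_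
    rw [smul_eq_mul]
    exact Nat.mul_le_mul_right _ (card_small_subsets I j n hIn.le)
  rw [sq] at hbig
  omega

end Pool.Agent.T2H15.UV
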