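import Mathlib

/-!
# Greedy embedding of ordered graphs
-/

set_option autoImplicit false

namespace Pool.Agent.T2H15.UV

open Finset

/-- Either the pattern `H` can be embedded with the `i`-th vertex in `V i`, or there is a sparse
pair. -/
theorem embed (f : ℕ → ℕ → Bool) (m K L : ℕ) (hm : 1 ≤ m) (hL : 1 ≤ L) :
    ∀ (k : ℕ), k ≤ K → ∀ (H : ℕ → ℕ → Bool) (V : ℕ → Finset ℕ),
    (∀ i < k, m ^ k * (K * L) ≤ (V i).card) →
    (∃ x : ℕ → ℕ, (∀ i < k, x i ∈ V i) ∧ ∀ i j, i < j → j < k → f (x i) (x j) = H i j) ∨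
    (∃ i j, i < j ∧ j < k ∧ ∃ A ⊆ V i, ∃ B ⊆ V j, ∃ a : Bool, L ≤ A.card ∧ L ≤ B.card ∧
      ∀ u ∈ A, m * (B.filter (fun v => f u v = a)).card < B.card) := by
  classical
  intro k
  induction k with
  | zero =>
    intro _ H V _
    left
    exact ⟨fun _ => 0, by simp, by simp⟩
  | succ k ih =>
    intro hk H V hV
    have hK : 1 ≤ K := by omega
    have hKL : 1 ≤ K * L := Nat.mul_pos hK hL
    by_cases h : ∃ x ∈ V 0, ∀ j < k,
        (V (j + 1)).card ≤ m * ((V (j + 1)).filter (fun v => f x v = H 0 (j + 1))).card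
    · obtain ⟨x, hx, hxj⟩ := h
      have hV' : ∀ i < k, m ^ k * (K * L) ≤
          ((V (i + 1)).filter (fun v => f x v = H 0 (i + 1))).card := by
        intro i hi
        have h1 := hV (i + 1) (by omega)
        have h2 := hxj i hi
        have h3 : m * (m ^ k * (K * L)) ≤
            m * ((V (i + 1)).filter (fun v => f x v = H 0 (i + 1))).card := by
          calc m * (m ^ k * (K * L)) = m ^ (k + 1) * (K * L) := by ring
            _ ≤ _ := h1.trans h2
        exact Nat.le_of_mul_le_mul_left h3 (by omega)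
      rcases ih (by omega) (fun i j => H (i + 1) (j + 1))
        (fun i => (V (i + 1)).filter (fun v => f x v = H 0 (i + 1))) hV' with
        ⟨y, hy1, hy2⟩ | ⟨i, j, hij, hj, A, hA, B, hB, a, hAL, hBL, hAB⟩
      · left
        refine ⟨fun i => Nat.casesOn i x y, ?_, ?_⟩
        · intro i hi
          cases i with
          | zero => exact hx
          | succ i => exact (mem_filter.1 (hy1 i (by omega))).1
        · intro i j hij hj
          cases j with
          | zero => omega
          | succ j =>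
            cases i with
            | zero => exact (mem_filter.1 (hy1 j (by omega))).2
            | succ i => exact hy2 i j (by omega) (by omega)
      · right
        exact ⟨i + 1, j + 1, by omega, by omega, A, hA.trans (filter_subset _ _), B,
          hB.trans (filter_subset _ _), a, hAL, hBL, hAB⟩
    · push Not at h
      right
      have hV0 := hV 0 (by omega)
      have hmk : 1 ≤ m ^ (k + 1) := Nat.one_le_pow _ _ hm
      have hV0' : K * L ≤ (V 0).card := (Nat.le_mul_of_pos_left _ hmk).trans hV0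
      have hcov : V 0 ⊆ (range k).biUnion (fun j => (V 0).filter (fun x =>
          m * ((V (j + 1)).filter (fun v => f x v = H 0 (j + 1))).card < (V (j + 1)).card)) := by
        intro x hx
        obtain ⟨j, hj, hlt⟩ := h x hx
        exact mem_biUnion.2 ⟨j, mem_range.2 hj, mem_filter.2 ⟨hx, hlt⟩⟩
      have hex : ∃ j < k, L ≤ ((V 0).filter (fun x =>
          m * ((V (j + 1)).filter (fun v => f x v = H 0 (j + 1))).card < (V (j + 1)).card)).card := by
        by_contra hcon
        push Not at hcon
        have h1 : (V 0).card ≤ k * (L - 1) := by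
          refine (card_le_card hcov).trans (card_biUnion_le.trans ?_)
          refine (sum_le_card_nsmul _ _ (L - 1) ?_).trans ?_
          · intro j hj
            have := hcon j (mem_range.1 hj)
            omega
          · simp
        have h2 : k * (L - 1) < K * L := by
          obtain ⟨L', rfl⟩ : ∃ L', L = L' + 1 := ⟨L - 1, by omega⟩
          simp only [Nat.add_sub_cancel]
          have : k * L' ≤ K * L' := Nat.mul_le_mul_right _ (by omega)
          nlinarith
        omega
      obtain ⟨j, hj, hjL⟩ := hex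
      have hVj := hV (j + 1) (by omega)
      refine ⟨0, j + 1, by omega, by omega, _, filter_subset _ _, V (j + 1), Subset.rfl,
        H 0 (j + 1), hjL, ?_, ?_⟩
      · calc L ≤ K * L := Nat.le_mul_of_pos_left _ hK
          _ ≤ m ^ (k + 1) * (K * L) := Nat.le_mul_of_pos_left _ hmk
          _ ≤ _ := hVj
      · intro u hu
        exact (mem_filter.1 hu).2

/-- Consecutive blocks of a set. -/
theorem blocks (U : Finset ℕ) (k M : ℕ) (hU : k * M ≤ U.card) :
    ∃ V : ℕ → Finset ℕ, (∀ i < k, V i ⊆ U) ∧ (∀ i < k, M ≤ (V i).card) ∧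
      ∀ i j, i < j → j < k → ∀ u ∈ V i, ∀ v ∈ V j, u < v := by
  classical
  set e : Fin U.card → ℕ := fun t => U.orderEmbOfFin rfl t with he
  have hem : StrictMono e := (U.orderEmbOfFin rfl).strictMono
  refine ⟨fun i => (univ.filter (fun t : Fin U.card => i * M ≤ t.1 ∧ t.1 < (i + 1) * M)).image e,
    ?_, ?_, ?_⟩
  · intro i _ x hx
    obtain ⟨t, -, rfl⟩ := mem_image.1 hx
    exact orderEmbOfFin_mem _ _ _
  · intro i hi
    rw [card_image_of_injective _ hem.injective]
    have hiM : (i + 1) * M ≤ U.card := (Nat.mul_le_mul_right _ (by omega)).trans hU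
    have hlt : ∀ s : Fin M, i * M + s.1 < (i + 1) * M := by
      intro s
      have := s.2
      rw [Nat.succ_mul]
      omega
    let g : Fin M → Fin U.card := fun s => ⟨i * M + s.1, (hlt s).trans_le hiM⟩
    have hg : Function.Injective g := by
      intro s t hst
      have := congrArg Fin.val hst
      simp only [g] at this
      exact Fin.ext (by omega)
    have h1 : (univ.image g).card = M := by
      rw [card_image_of_injective _ hg, card_univ, Fintype.card_fin]
    refine h1.symm.le.trans (card_le_card ?_)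
    intro t ht
    obtain ⟨s, -, rfl⟩ := mem_image.1 ht
    exact mem_filter.2 ⟨mem_univ _, Nat.le_add_right _ _, hlt s⟩
  · intro i j hij hj u hu v hv
    obtain ⟨s, hs, rfl⟩ := mem_image.1 hu
    obtain ⟨t, ht, rfl⟩ := mem_image.1 hv
    apply hem
    rw [Fin.lt_def]
    have h1 := (mem_filter.1 hs).2.2
    have h2 := (mem_filter.1 ht).2.1
    have h3 : (i + 1) * M ≤ j * M := Nat.mul_le_mul_right _ (by omega)
    omega

/-- The pattern `H` is contained in `U`. -/
def Has (f : ℕ → ℕ → Bool) (k : ℕ) (H : ℕ → ℕ → Bool) (U : Finset ℕ) : Prop :=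
  ∃ x : ℕ → ℕ, (∀ i < k, x i ∈ U) ∧ (∀ i j, i < j → j < k → x i < x j) ∧
    ∀ i j, i < j → j < k → f (x i) (x j) = H i j

/-- A set without the pattern `H` contains a sparse pair. -/
theorem sparse_pair (f : ℕ → ℕ → Bool) (m k L : ℕ) (hm : 1 ≤ m) (hL : 1 ≤ L)
    (H : ℕ → ℕ → Bool) (U : Finset ℕ) (hU : k * (m ^ k * (k * L)) ≤ U.card)
    (hH : ¬ Has f k H U) :
    ∃ A ⊆ U, ∃ B ⊆ U, Disjoint A B ∧ L ≤ A.card ∧ L ≤ B.card ∧ ∃ a : Bool,
      ∀ u ∈ A, m * (B.filter (fun v => f u v = a)).card < B.card := by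
  classical
  obtain ⟨V, hVU, hVc, hVlt⟩ := blocks U k _ hU
  rcases embed f m k L hm hL k le_rfl H V hVc with ⟨x, hx, hxf⟩ | 
    ⟨i, j, hij, hj, A, hA, B, hB, a, hAL, hBL, hAB⟩
  · exact absurd ⟨x, fun i hi => hVU i hi (hx i hi), fun i j hij hj =>
      hVlt i j hij hj _ (hx i (hij.trans hj)) _ (hx j hj), hxf⟩ hH
  · refine ⟨A, hA.trans (hVU i (hij.trans hj)), B, hB.trans (hVU j hj), ?_, hAL, hBL, a, hAB⟩
    rw [disjoint_left]
    intro u hu hu'
    exact lt_irrefl u (hVlt i j hij hj u (hA hu) u (hB hu'))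

end Pool.Agent.T2H15.UV
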