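import Pool.Agent.T2H15.UV.ESz

/-!
# Graphs without large homogeneous sets contain all ordered patterns (Fox–Sudakov, ordered form)
-/

set_option autoImplicit false

namespace Pool.Agent.T2H15.UV

open Finset

theorem pow_self_le (M : ℕ) : M ^ M ≤ 4 ^ M * M.factorial := by
  have h1 := Real.pow_div_factorial_le_exp (M : ℝ) (Nat.cast_nonneg M) M
  have h2 : Real.exp (M : ℝ) ≤ 4 ^ M := by
    have h3 : Real.exp (M : ℝ) = (Real.exp 1) ^ M := by
      rw [← Real.exp_nat_mul]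
      simp
    rw [h3]
    have h4 := Real.exp_one_lt_d9
    exact pow_le_pow_left₀ (Real.exp_pos 1).le (by linarith) _
  have h5 : (0 : ℝ) < M.factorial := by exact_mod_cast M.factorial_pos
  have h6 : (M : ℝ) ^ M ≤ 4 ^ M * M.factorial := by
    rw [div_le_iff₀ h5] at h1
    exact h1.trans (mul_le_mul_of_nonneg_right h2 h5.le)
  exact_mod_cast h6

theorem choose_mul_pow_le (N M : ℕ) : N.choose M * M ^ M ≤ (4 * N) ^ M := by
  have h1 : N.choose M * M.factorial ≤ N ^ M := by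
    rw [mul_comm, ← Nat.descFactorial_eq_factorial_mul_choose]
    exact Nat.descFactorial_le_pow _ _
  calc N.choose M * M ^ M ≤ N.choose M * (4 ^ M * M.factorial) :=
        Nat.mul_le_mul_left _ (pow_self_le M)
    _ = 4 ^ M * (N.choose M * M.factorial) := by ring
    _ ≤ 4 ^ M * N ^ M := Nat.mul_le_mul_left _ h1
    _ = _ := by rw [mul_pow]

theorem choose_bound (p k n : ℕ) (hk : 1 ≤ k) (hn : n ≤ 2 ^ p * k) :
    (n + 16 * k).choose (16 * k) ≤ 2 ^ (16 * k * (p + 3)) := by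
  have h1 := choose_mul_pow_le (n + 16 * k) (16 * k)
  have h2 : (4 * (n + 16 * k)) ^ (16 * k) ≤ (2 ^ (p + 3) * (16 * k)) ^ (16 * k) := by
    apply Nat.pow_le_pow_left
    have h3 : 1 ≤ 2 ^ p := Nat.one_le_two_pow
    rw [pow_add]
    nlinarith
  have h3 : 0 < (16 * k) ^ (16 * k) := by positivity
  have h4 : (n + 16 * k).choose (16 * k) * (16 * k) ^ (16 * k) ≤
      2 ^ (16 * k * (p + 3)) * (16 * k) ^ (16 * k) := by
    refine h1.trans (h2.trans ?_)
    rw [mul_pow, ← pow_mul, mul_comm (p + 3)]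
  exact Nat.le_of_mul_le_mul_right h4 h3

/-- the exponent -/
def Yexp (p k : ℕ) : ℕ := 100 * k * (p + 1) ^ 2

/-- **Universality for graphs.** -/
theorem graph_univ {f : ℕ → ℕ → Bool} (hf : ∀ x y, f x y = f y x) (p k n : ℕ) (hk : 1 ≤ k)
    (hn : n ≤ 2 ^ p * k) (U : Finset ℕ) (hU : 2 ^ Yexp p k ≤ U.card)
    (hno : ∀ b : Bool, ∀ I ⊆ U, I.card = n → ¬ Mono f b I) (H : ℕ → ℕ → Bool) :
    Has f k H U := by
  classical
  by_contra hH
  set m := 2 ^ (p + 1) with hm
  set D := k ^ 2 * m ^ k with hD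
  set w := 2 ^ (32 * k * (p + 3) + 4) with hw
  have hm1 : 1 ≤ m := Nat.one_le_two_pow
  have hD1 : 1 ≤ D := Nat.mul_pos (by positivity) (by positivity)
  have hw1 : 1 ≤ w := Nat.one_le_two_pow
  have hpair : ∀ L, 1 ≤ L → ∀ U' ⊆ U, D * L ≤ U'.card → ∃ A ⊆ U', ∃ B ⊆ U',
      Disjoint A B ∧ L ≤ A.card ∧ L ≤ B.card ∧ ∃ a : Bool,
        ∀ u ∈ A, m * (B.filter (fun v => f u v = a)).card < B.card := by
    intro L hL U' hU' hc
    apply sparse_pair f m k L hm1 hL H U'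
    · calc k * (m ^ k * (k * L)) = D * L := by rw [hD]; ring
        _ ≤ _ := hc
    · rintro ⟨x, hx1, hx2, hx3⟩
      exact hH ⟨x, fun i hi => hU' (hx1 i hi), hx2, hx3⟩
  have hkk : k ≤ 2 ^ k := Nat.lt_two_pow_self.le
  have hsize : w * (2 * D) ^ (p + p) ≤ U.card := by
    refine le_trans ?_ hU
    have h1 : 2 * D ≤ 2 ^ (1 + 2 * k + (p + 1) * k) := by
      rw [hD, hm, ← pow_mul, pow_add, pow_add]
      calc 2 * (k ^ 2 * 2 ^ ((p + 1) * k)) = 2 ^ 1 * k ^ 2 * 2 ^ ((p + 1) * k) := by ring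
        _ ≤ 2 ^ 1 * 2 ^ (2 * k) * 2 ^ ((p + 1) * k) := by
            apply Nat.mul_le_mul_right
            apply Nat.mul_le_mul_left
            rw [mul_comm 2 k, pow_mul]
            exact Nat.pow_le_pow_left hkk 2
    calc w * (2 * D) ^ (p + p) ≤ w * (2 ^ (1 + 2 * k + (p + 1) * k)) ^ (p + p) :=
          Nat.mul_le_mul_left _ (Nat.pow_le_pow_left h1 _)
      _ = 2 ^ (32 * k * (p + 3) + 4 + (1 + 2 * k + (p + 1) * k) * (p + p)) := by
          rw [hw, ← pow_mul, ← pow_add]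
      _ ≤ 2 ^ Yexp p k := by
          apply Nat.pow_le_pow_right (by norm_num)
          unfold Yexp
          nlinarith [Nat.zero_le (k * p), Nat.zero_le (k * p ^ 2), Nat.zero_le p,
            Nat.mul_le_mul_right p hk, Nat.mul_le_mul_right (p ^ 2) hk]
  obtain ⟨a, X, hX, hXc, hXe⟩ := sparse hf m D w hw1 hm1 hD1 U hpair (p + p) (fun _ => p) rfl U
    Subset.rfl hsize
  have hXe' : ee f a X X ≤ 2 * (2 ^ p * w ^ 2) := by
    have h1 : m * ee f a X X ≤ m * (2 * (2 ^ p * w ^ 2)) := by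
      calc m * ee f a X X ≤ 2 ^ p * w ^ 2 * (m + 2 ^ (p + 1)) := hXe
        _ = m * (2 * (2 ^ p * w ^ 2)) := by rw [← hm]; ring
    exact Nat.le_of_mul_le_mul_left h1 (by omega)
  have hch := choose_bound p k n hk hn
  obtain ⟨b, I, hI, hIc, hIm⟩ := erdos_szemeredi hf a n (16 * k) (2 ^ p) w hw1 X hXc hXe'
    (by nlinarith) (by
      have h1 : (n + 16 * k).choose (16 * k) ^ 2 ≤ 2 ^ (32 * k * (p + 3)) := by
        calc (n + 16 * k).choose (16 * k) ^ 2 ≤ (2 ^ (16 * k * (p + 3))) ^ 2 :=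
              Nat.pow_le_pow_left hch 2
          _ = _ := by rw [← pow_mul]; ring_nf
      have h2 : k ≤ 2 ^ (32 * k * (p + 3)) := by
        refine hkk.trans (Nat.pow_le_pow_right (by norm_num) ?_)
        nlinarith [Nat.zero_le (k * p)]
      have h3 : w = 16 * 2 ^ (32 * k * (p + 3)) := by rw [hw, pow_add]; ring
      have h4 : 1 ≤ 2 ^ p := Nat.one_le_two_pow
      set E := 2 ^ (32 * k * (p + 3)) with hE
      have h5 : 1 ≤ E := Nat.one_le_two_pow
      rw [h3]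
      calc 4 * n + 4 * (n + 16 * k).choose (16 * k) ^ 2 ≤ 4 * (2 ^ p * E) + 4 * E := by
            have : 2 ^ p * k ≤ 2 ^ p * E := Nat.mul_le_mul_left _ h2
            omega
        _ ≤ 4 * (2 ^ p * E) + 4 * (2 ^ p * E) := by
            have : E ≤ 2 ^ p * E := Nat.le_mul_of_pos_left _ h4
            omega
        _ < 2 ^ p * (16 * E) := by
            have : 0 < 2 ^ p * E := Nat.mul_pos h4 h5
            nlinarith)
  exact hno b I (hI.trans hX) hIc hIm

end Pool.Agent.T2H15.UV
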