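import Pool.Agent.T2H15.UV.Graph
import Pool.Agent.Y424.LK.QLink

/-!
# Colourings of `r`-subsets without large homogeneous sets contain all end-determined patterns
-/

set_option autoImplicit false

namespace Pool.Agent.T2H15.UV

open Finset Pool.Agent.TH138.NF Pool.Agent.Y424.LK

/-- `x` is a copy of the pattern `g`: the colour of the image of an `r`-subset of `Fin k` with the
two smallest elements `i < j` is `g i j`. -/
def IsCopy (r : ℕ) {k : ℕ} (c : Finset ℕ → Bool) (g : Fin k → Fin k → Bool) (x : Fin k → ℕ) :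
    Prop :=
  StrictMono x ∧ ∀ e : Finset (Fin k), e.card = r → ∀ i ∈ e, ∀ j ∈ e, i < j →
    (∀ l ∈ e, l = i ∨ j ≤ l) → c (e.image x) = g i j

/-- the number of vertices -/
def MM (s p k : ℕ) : ℕ := twr (s + 1) (200 * k * (p + 1) ^ 2 + (s + 2) ^ 2)

theorem copy_exists (s p k n : ℕ) (hk : 1 ≤ k) (hn : n ≤ 2 ^ p * k) (c : Finset ℕ → Bool)
    (V : Finset ℕ) (hV : MM s p k ≤ V.card)
    (hno : ¬ ∃ S ⊆ V, S.card = n ∧ Homogeneous (s + 2) c S) (g : Fin k → Fin k → Bool) :
    ∃ x : Fin k → ℕ, (∀ i, x i ∈ V) ∧ IsCopy (s + 2) c g x := by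
  classical
  have h1 : NQ (Fintype.card Bool) (2 ^ Yexp p k) s ≤ V.card := by
    refine (NQ_le 2 1 le_rfl le_rfl (Yexp p k) s).trans ?_
    refine le_trans (le_of_eq ?_) hV
    unfold MM Yexp
    congr 1
    ring
  obtain ⟨U, hUV, S, hSV, hUc, hSc, hlt, hL⟩ := linkQ Bool (2 ^ Yexp p k) s V h1 c
  set f : ℕ → ℕ → Bool := fun x y => c (insert x (insert y S)) with hf
  have hfs : ∀ x y, f x y = f y x := fun x y => by
    simp only [hf]
    rw [insert_comm]
  have hno' : ∀ b : Bool, ∀ I ⊆ U, I.card = n → ¬ Mono f b I := by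
    intro b I hI hIc hIm
    refine hno ⟨I, hI.trans hUV, hIc, ?_⟩
    intro A hA B hB hAc hBc
    have h2 := homQ hL hI b (fun x hx y hy hxy => hIm x hx y hy hxy.ne)
    rw [h2 A hA hAc, h2 B hB hBc]
  obtain ⟨x, hx1, hx2, hx3⟩ := graph_univ hfs p k n hk hn U hUc.ge hno'
    (fun i j => if h : i < k ∧ j < k then g ⟨i, h.1⟩ ⟨j, h.2⟩ else false)
  have hmono : StrictMono (fun i : Fin k => x i) := by
    intro i j hij
    exact hx2 i j hij j.2
  refine ⟨fun i => x i, fun i => hUV (hx1 i i.2), hmono, ?_⟩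
  intro e he i hi j hj hij hl
  have h2 := hL (e.image (fun i : Fin k => x i)) (by
      intro z hz
      obtain ⟨l, -, rfl⟩ := mem_image.1 hz
      exact hx1 l l.2) (by rw [card_image_of_injective _ hmono.injective, he])
    (x i) (mem_image_of_mem _ hi) (x j) (mem_image_of_mem _ hj) (hmono hij) (by
      intro z hz
      obtain ⟨l, hle, rfl⟩ := mem_image.1 hz
      rcases hl l hle with h | h
      · left
        rw [h]
      · right
        exact hmono.monotone h)
  rw [h2]
  have h3 := hx3 i j hij j.2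
  simp only [hf] at h3
  rw [h3, dif_pos ⟨i.2, j.2⟩]

theorem IsCopy.restrict {r k k' : ℕ} {c : Finset ℕ → Bool} (hk : k ≤ k')
    {g : Fin k → Fin k → Bool} {x : Fin k' → ℕ}
    (hx : IsCopy r c (fun i j => if h : i.1 < k ∧ j.1 < k then g ⟨i.1, h.1⟩ ⟨j.1, h.2⟩ else false)
      x) : IsCopy r c g (fun i => x (Fin.castLE hk i)) := by
  classical
  refine ⟨fun i j hij => hx.1 hij, ?_⟩
  intro e he i hi j hj hij hl
  have h1 := hx.2 (e.map (Fin.castLEEmb hk)) (by rw [card_map, he]) (Fin.castLE hk i)
    (mem_map_of_mem _ hi) (Fin.castLE hk j) (mem_map_of_mem _ hj) hij (by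
      intro l hle
      obtain ⟨l', hl', rfl⟩ := mem_map.1 hle
      rcases hl l' hl' with h | h
      · left
        rw [h]
        rfl
      · right
        exact h)
  have h2 : (e.map (Fin.castLEEmb hk)).image x = e.image (fun i => x (Fin.castLE hk i)) := by
    rw [map_eq_image, image_image]
    rfl
  rw [h2] at h1
  rw [h1]
  exact dif_pos ⟨i.2, j.2⟩

open Classical in
/-- **Supersaturation.** -/
theorem supersat (r k M N : ℕ) (hkM : k ≤ M) (hMN : M ≤ N) (c : Finset ℕ → Bool)
    (g : Fin k → Fin k → Bool)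
    (h : ∀ V ⊆ range N, M ≤ V.card → ∃ x : Fin k → ℕ, (∀ i, x i ∈ V) ∧ IsCopy r c g x) :
    N.choose k ≤ ((univ : Finset (Fin k → Fin N)).filter
      (fun x => IsCopy r c g (fun i => (x i : ℕ)))).card * M.choose k := by
  set C := ((univ : Finset (Fin k → Fin N)).filter
      (fun x => IsCopy r c g (fun i => (x i : ℕ)))) with hC
  set im : (Fin k → Fin N) → Finset ℕ := fun x => univ.image (fun i => (x i : ℕ)) with him
  -- every `M`-set contains a copy
  have hcov : powersetCard M (range N) ⊆ C.biUnion (fun x => (powersetCard M (range N)).filter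
      (fun V => im x ⊆ V)) := by
    intro V hV
    obtain ⟨hVN, hVc⟩ := mem_powersetCard.1 hV
    obtain ⟨x, hxV, hx⟩ := h V hVN hVc.ge
    refine mem_biUnion.2 ⟨fun i => ⟨x i, mem_range.1 (hVN (hxV i))⟩, ?_, ?_⟩
    · exact mem_filter.2 ⟨mem_univ _, hx⟩
    · refine mem_filter.2 ⟨hV, ?_⟩
      intro z hz
      obtain ⟨i, -, rfl⟩ := mem_image.1 hz
      exact hxV i
  have hcount : ∀ x ∈ C, ((powersetCard M (range N)).filter (fun V => im x ⊆ V)).card ≤
      (N - k).choose (M - k) := by
    intro x hx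
    have hxm := (mem_filter.1 hx).2.1
    have himc : (im x).card = k := by
      rw [him]
      simp only
      rw [card_image_of_injective _ hxm.injective, card_univ, Fintype.card_fin]
    have himN : im x ⊆ range N := by
      intro z hz
      obtain ⟨i, -, rfl⟩ := mem_image.1 hz
      exact mem_range.2 (x i).2
    have h1 : (powersetCard (M - k) (range N \ im x)).card = (N - k).choose (M - k) := by
      rw [card_powersetCard, card_sdiff_of_subset himN, card_range, himc]
    rw [← h1]
    apply card_le_card_of_injOn (fun V => V \ im x)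
    · intro V hV
      rw [Finset.mem_coe, mem_filter, mem_powersetCard] at hV
      rw [Finset.mem_coe, mem_powersetCard]
      refine ⟨sdiff_subset_sdiff hV.1.1 Subset.rfl, ?_⟩
      rw [card_sdiff_of_subset hV.2, hV.1.2, himc]
    · intro V hV V' hV' h
      rw [Finset.mem_coe, mem_filter] at hV hV'
      simp only at h
      rw [← sdiff_union_of_subset hV.2, h, sdiff_union_of_subset hV'.2]
  have h2 : N.choose M ≤ C.card * (N - k).choose (M - k) := by
    have h3 := (card_le_card hcov).trans card_biUnion_le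
    rw [card_powersetCard, card_range] at h3
    refine h3.trans ((sum_le_card_nsmul _ _ _ hcount).trans ?_)
    rw [smul_eq_mul]
  have h4 : N.choose M * M.choose k = N.choose k * (N - k).choose (M - k) :=
    Nat.choose_mul hkM
  have h5 : 0 < (N - k).choose (M - k) := Nat.choose_pos (by omega)
  have h6 : N.choose k * (N - k).choose (M - k) ≤ C.card * M.choose k * (N - k).choose (M - k) := by
    rw [← h4]
    calc N.choose M * M.choose k ≤ C.card * (N - k).choose (M - k) * M.choose k :=
          Nat.mul_le_mul_right _ h2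
      _ = _ := by ring
  exact Nat.le_of_mul_le_mul_right h6 h5

theorem le_MM {s p k : ℕ} : k ≤ MM s p k := by
  rw [MM]
  refine le_trans ?_ (le_twr _ _)
  nlinarith [Nat.zero_le (k * (p ^ 2 + 2 * p)), Nat.zero_le ((s + 2) ^ 2)]

/-- `C(N,k)/C(M,k) ≥ (N/M)^k` -/
theorem choose_ratio (M N : ℕ) (hMN : M ≤ N) : ∀ k : ℕ, k ≤ M →
    N ^ k * M.choose k ≤ M ^ k * N.choose k := by
  intro k
  induction k with
  | zero => simp
  | succ k ih =>
    intro hk
    have h1 := ih (by omega)
    have e1 : N.choose (k + 1) * (k + 1) = N.choose k * (N - k) := Nat.choose_succ_right_eq N k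
    have e2 : M.choose (k + 1) * (k + 1) = M.choose k * (M - k) := Nat.choose_succ_right_eq M k
    have h2 : N * (M - k) ≤ M * (N - k) := by
      obtain ⟨a, rfl⟩ : ∃ a, M = k + a := ⟨M - k, by omega⟩
      obtain ⟨b, rfl⟩ : ∃ b, N = k + a + b := ⟨N - (k + a), by omega⟩
      rw [show k + a - k = a by omega, show k + a + b - k = a + b by omega]
      nlinarith [Nat.zero_le (k * b)]
    have h3 : N ^ (k + 1) * M.choose (k + 1) * (k + 1) ≤ M ^ (k + 1) * N.choose (k + 1) * (k + 1) := by
      calc N ^ (k + 1) * M.choose (k + 1) * (k + 1)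
          = N ^ k * N * (M.choose (k + 1) * (k + 1)) := by ring
        _ = (N ^ k * M.choose k) * (N * (M - k)) := by rw [e2]; ring
        _ ≤ (M ^ k * N.choose k) * (M * (N - k)) := Nat.mul_le_mul h1 h2
        _ = M ^ k * M * (N.choose k * (N - k)) := by ring
        _ = M ^ (k + 1) * N.choose (k + 1) * (k + 1) := by rw [← e1]; ring
    exact Nat.le_of_mul_le_mul_right h3 (by omega)

end Pool.Agent.T2H15.UV
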