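import Pool.Agent.T2H15.UV.Embed

/-!
# Sets in which one colour is rare (Fox–Sudakov)
-/

set_option autoImplicit false

namespace Pool.Agent.T2H15.UV

open Finset

/-- number of ordered pairs of colour `a` -/
def ee (f : ℕ → ℕ → Bool) (a : Bool) (A B : Finset ℕ) : ℕ :=
  ∑ u ∈ A, ∑ v ∈ B, if f u v = a then 1 else 0

theorem ee_eq (f : ℕ → ℕ → Bool) (a : Bool) (A B : Finset ℕ) :
    ee f a A B = ∑ u ∈ A, (B.filter (fun v => f u v = a)).card := by
  unfold ee
  apply sum_congr rfl
  intro u _
  rw [card_filter]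

theorem ee_symm {f : ℕ → ℕ → Bool} (hf : ∀ x y, f x y = f y x) (a : Bool) (A B : Finset ℕ) :
    ee f a A B = ee f a B A := by
  unfold ee
  rw [sum_comm]
  apply sum_congr rfl
  intro u _
  apply sum_congr rfl
  intro v _
  rw [hf]

theorem ee_union {f : ℕ → ℕ → Bool} (hf : ∀ x y, f x y = f y x) (a : Bool) {A B : Finset ℕ}
    (h : Disjoint A B) : ee f a (A ∪ B) (A ∪ B) = ee f a A A + ee f a B B + 2 * ee f a A B := by
  have h1 : ee f a (A ∪ B) (A ∪ B) = ee f a A A + ee f a A B + (ee f a B A + ee f a B B) := by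
    unfold ee
    rw [sum_union h]
    simp_rw [sum_union h]
    rw [sum_add_distrib, sum_add_distrib]
  rw [h1, ee_symm hf a B A]
  ring

theorem ee_le (f : ℕ → ℕ → Bool) (a : Bool) (A B : Finset ℕ) : ee f a A B ≤ A.card * B.card := by
  rw [ee_eq]
  refine (sum_le_card_nsmul _ _ B.card ?_).trans ?_
  · intro u _
    exact card_le_card (filter_subset _ _)
  · simp

/-- Iterating the sparse pairs. -/
theorem sparse {f : ℕ → ℕ → Bool} (hf : ∀ x y, f x y = f y x) (m D w : ℕ) (hw : 1 ≤ w)
    (hm : 1 ≤ m) (hD : 1 ≤ D)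
    (U₀ : Finset ℕ) (hpair : ∀ L, 1 ≤ L → ∀ U ⊆ U₀, D * L ≤ U.card → ∃ A ⊆ U, ∃ B ⊆ U,
      Disjoint A B ∧ L ≤ A.card ∧ L ≤ B.card ∧ ∃ a : Bool,
        ∀ u ∈ A, m * (B.filter (fun v => f u v = a)).card < B.card) :
    ∀ (T : ℕ) (d : Bool → ℕ), d false + d true = T → ∀ U ⊆ U₀, w * (2 * D) ^ T ≤ U.card →
      ∃ a : Bool, ∃ X ⊆ U, X.card = 2 ^ d a * w ∧
        m * ee f a X X ≤ 2 ^ d a * w ^ 2 * (m + 2 ^ (d a + 1)) := by
  classical
  intro T
  induction T with
  | zero =>
    intro d hd U _ hU
    have hd0 : d false = 0 := by omega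
    obtain ⟨X, hX, hXc⟩ := exists_subset_card_eq (show w ≤ U.card by simpa using hU)
    refine ⟨false, X, hX, by rw [hd0, hXc]; simp, ?_⟩
    rw [hd0]
    have h1 := ee_le f false X X
    rw [hXc] at h1
    calc m * ee f false X X ≤ m * (w * w) := Nat.mul_le_mul_left _ h1
      _ = 2 ^ 0 * w ^ 2 * m := by ring
      _ ≤ _ := Nat.mul_le_mul_left _ (Nat.le_add_right _ _)
  | succ T ih =>
    intro d hd U hUU hU
    by_cases h0 : ∃ a, d a = 0
    · obtain ⟨a, ha⟩ := h0
      have h2 : 1 ≤ (2 * D) ^ (T + 1) := Nat.one_le_pow _ _ (by omega)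
      have h3 : w ≤ U.card := (Nat.le_mul_of_pos_right _ h2).trans hU
      obtain ⟨X, hX, hXc⟩ := exists_subset_card_eq h3
      refine ⟨a, X, hX, by rw [ha, hXc]; simp, ?_⟩
      rw [ha]
      have h1 := ee_le f a X X
      rw [hXc] at h1
      calc m * ee f a X X ≤ m * (w * w) := Nat.mul_le_mul_left _ h1
        _ = 2 ^ 0 * w ^ 2 * m := by ring
        _ ≤ _ := Nat.mul_le_mul_left _ (Nat.le_add_right _ _)
    push Not at h0
    have hpow : 1 ≤ (2 * D) ^ T := Nat.one_le_pow _ _ (by omega)
    obtain ⟨A, hA, B, hB, hAB, hAc, hBc, a, hrare⟩ := hpair (2 * (w * (2 * D) ^ T))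
      (by have := Nat.mul_pos hw hpow; omega) U hUU (by
        calc D * (2 * (w * (2 * D) ^ T)) = w * (2 * D) ^ (T + 1) := by ring
          _ ≤ _ := hU)
    obtain ⟨e, he⟩ : ∃ e, d a = e + 1 := ⟨d a - 1, by have := h0 a; omega⟩
    have hd' : Function.update d a e false + Function.update d a e true = T := by
      cases a
      · simp only [Function.update_self]
        rw [Function.update_of_ne (by decide)]
        omega
      · simp only [Function.update_self]
        rw [Function.update_of_ne (by decide)]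
        omega
    obtain ⟨a₁, XA, hXA, hXAc, hXAe⟩ := ih (Function.update d a e) hd' A (hA.trans hUU)
      (by omega)
    by_cases ha1 : a₁ = a
    · subst ha1
      rw [Function.update_self] at hXAc hXAe
      -- the vertices of `B` with few neighbours in `XA`
      set B' := B.filter (fun v => m * (XA.filter (fun u => f v u = a₁)).card ≤ 2 * XA.card) with hB'
      have hXApos : 1 ≤ XA.card := by
        rw [hXAc]
        exact Nat.mul_pos (by positivity) hw
      have hB'c : B.card ≤ 2 * B'.card := by
        have h1 : m * ee f a₁ XA B ≤ XA.card * B.card := by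
          rw [ee_eq, mul_sum]
          refine (sum_le_card_nsmul _ _ B.card ?_).trans ?_
          · intro u hu
            exact (hrare u (hXA hu)).le
          · simp
        have h2 : 2 * XA.card * (B \ B').card ≤ m * ee f a₁ XA B := by
          rw [ee_symm hf, ee_eq, mul_sum]
          calc 2 * XA.card * (B \ B').card = ∑ v ∈ B \ B', 2 * XA.card := by
                rw [sum_const, smul_eq_mul, mul_comm]
            _ ≤ ∑ v ∈ B \ B', m * (XA.filter (fun u => f v u = a₁)).card := by
                apply sum_le_sum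
                intro v hv
                rw [mem_sdiff] at hv
                by_contra hcon
                exact hv.2 (mem_filter.2 ⟨hv.1, (not_le.1 hcon).le⟩)
            _ ≤ _ := sum_le_sum_of_subset sdiff_subset
        have h3 : XA.card * (2 * (B \ B').card) ≤ XA.card * B.card := by
          calc XA.card * (2 * (B \ B').card) = 2 * XA.card * (B \ B').card := by ring
            _ ≤ _ := h2.trans h1
        have h4 : 2 * (B \ B').card ≤ B.card := Nat.le_of_mul_le_mul_left h3 hXApos
        have h5 : (B \ B').card + B'.card = B.card := card_sdiff_add_card_eq_card (filter_subset _ _)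
        omega
      obtain ⟨a₂, XB, hXB, hXBc, hXBe⟩ := ih (Function.update d a₁ e) hd' B'
        (((filter_subset _ _).trans hB).trans hUU) (by omega)
      by_cases ha2 : a₂ = a₁
      · subst ha2
        rw [Function.update_self] at hXBc hXBe
        have hdis : Disjoint XA XB := by
          rw [disjoint_left] at hAB ⊢
          intro u hu hu'
          exact hAB (hXA hu) ((mem_filter.1 (hXB hu')).1)
        refine ⟨a₂, XA ∪ XB, union_subset (hXA.trans hA)
          ((hXB.trans (filter_subset _ _)).trans hB), ?_, ?_⟩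
        · rw [card_union_of_disjoint hdis, hXAc, hXBc, he]
          ring
        · rw [ee_union hf a₂ hdis, he]
          have h1 : m * ee f a₂ XA XB ≤ 2 * XA.card * XB.card := by
            rw [ee_symm hf, ee_eq, mul_sum]
            refine (sum_le_card_nsmul _ _ (2 * XA.card) ?_).trans ?_
            · intro v hv
              exact (mem_filter.1 (hXB hv)).2
            · rw [smul_eq_mul, mul_comm]
          rw [hXAc, hXBc] at h1
          calc m * (ee f a₂ XA XA + ee f a₂ XB XB + 2 * ee f a₂ XA XB)
              = m * ee f a₂ XA XA + m * ee f a₂ XB XB + 2 * (m * ee f a₂ XA XB) := by ring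
            _ ≤ 2 ^ e * w ^ 2 * (m + 2 ^ (e + 1)) + 2 ^ e * w ^ 2 * (m + 2 ^ (e + 1)) +
                2 * (2 * (2 ^ e * w) * (2 ^ e * w)) := by
                gcongr
            _ = 2 ^ (e + 1) * w ^ 2 * (m + 2 ^ (e + 1 + 1)) := by ring
      · refine ⟨a₂, XB, (hXB.trans (filter_subset _ _)).trans hB, ?_, ?_⟩
        · rw [hXBc, Function.update_of_ne ha2]
        · rw [Function.update_of_ne ha2] at hXBe
          exact hXBe
    · refine ⟨a₁, XA, hXA.trans hA, ?_, ?_⟩
      · rw [hXAc, Function.update_of_ne ha1]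
      · rw [Function.update_of_ne ha1] at hXAe
        exact hXAe

end Pool.Agent.T2H15.UV
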